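import Pool.Agent.Lib.MP_2d002d_gt.PM.Interfaces

/-!
# Module APXU: smooth convex potentials approximating Minkowski combinations
-/

set_option autoImplicit false

open MeasureTheory Set Filter Topology
open scoped ENNReal Pointwise

namespace Pool.Agent.Lib.MP_2d002d_gt.PM.H93

/-- dot product -/
noncomputable def dt {n : ℕ} (a x : Fin n → ℝ) : ℝ := ∑ i, a i * x i

/-- support function -/
noncomputable def sup {n : ℕ} (K : Set (Fin n → ℝ)) (a : Fin n → ℝ) : ℝ :=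
  sSup ((fun x => dt a x) '' K)

theorem dt_neg {n : ℕ} (a x : Fin n → ℝ) : dt a (-x) = -dt a x := by
  unfold dt
  rw [← Finset.sum_neg_distrib]
  exact Finset.sum_congr rfl fun i _ => by simp

theorem dt_comb {n : ℕ} (a x y : Fin n → ℝ) (α β : ℝ) :
    dt a (α • x + β • y) = α * dt a x + β * dt a y := by
  unfold dt
  rw [Finset.mul_sum, Finset.mul_sum, ← Finset.sum_add_distrib]
  refine Finset.sum_congr rfl fun i _ => ?_
  simp only [Pi.add_apply, Pi.smul_apply, smul_eq_mul]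
  ring

theorem dt_cont {n : ℕ} : Continuous (fun p : (Fin n → ℝ) × (Fin n → ℝ) => dt p.1 p.2) := by
  unfold dt
  fun_prop

theorem dt_cont2 {n : ℕ} (a : Fin n → ℝ) : Continuous (fun x : Fin n → ℝ => dt a x) := by
  unfold dt
  fun_prop

theorem dt_cont1 {n : ℕ} (x : Fin n → ℝ) : Continuous (fun a : Fin n → ℝ => dt a x) := by
  unfold dt
  fun_prop

theorem le_sup {n : ℕ} {K : Set (Fin n → ℝ)} (hK : IsCompact K) (a : Fin n → ℝ)
    {x : Fin n → ℝ} (hx : x ∈ K) : dt a x ≤ sup K a :=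
  le_csSup (hK.bddAbove_image (dt_cont2 a).continuousOn) ⟨x, hx, rfl⟩

theorem sup_attained {n : ℕ} {K : Set (Fin n → ℝ)} (hK : IsCompact K) (hne : K.Nonempty)
    (a : Fin n → ℝ) : ∃ x ∈ K, dt a x = sup K a := by
  obtain ⟨x, hx, h⟩ := hK.exists_sSup_image_eq hne (dt_cont2 a).continuousOn
  exact ⟨x, hx, h.symm⟩

theorem sup_cont {n : ℕ} {K : Set (Fin n → ℝ)} (hK : IsCompact K) : Continuous (sup K) := by
  unfold sup
  exact hK.continuous_sSup (f := fun a x => dt a x) dt_cont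

/-- the exponent -/
noncomputable def ex {n : ℕ} (K₀ K₁ : Set (Fin n → ℝ)) (N : ℕ) (a : Fin n → ℝ) (σ : ℝ)
    (p : ℝ × (Fin n → ℝ)) : ℝ :=
  (N : ℝ) ^ 2 * (σ * dt a p.2 - ((1 - p.1) * sup K₀ a + p.1 * sup K₁ a) - 1 / N)

/-- the potentials -/
noncomputable def UU {n : ℕ} (K₀ K₁ : Set (Fin n → ℝ)) (A : ℕ → Fin n → ℝ) (N : ℕ)
    (p : ℝ × (Fin n → ℝ)) : ℝ :=
  ∑ j ∈ Finset.range N, (Real.exp (ex K₀ K₁ N (A j) 1 p) + Real.exp (ex K₀ K₁ N (A j) (-1) p))

theorem ex_smooth {n : ℕ} (K₀ K₁ : Set (Fin n → ℝ)) (N : ℕ) (a : Fin n → ℝ) (σ : ℝ) :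
    ContDiff ℝ 2 (ex K₀ K₁ N a σ) := by
  unfold ex dt
  fun_prop

theorem ex_comb {n : ℕ} (K₀ K₁ : Set (Fin n → ℝ)) (N : ℕ) (a : Fin n → ℝ) (σ : ℝ)
    (p q : ℝ × (Fin n → ℝ)) {α β : ℝ} (h : α + β = 1) :
    ex K₀ K₁ N a σ (α • p + β • q) = α * ex K₀ K₁ N a σ p + β * ex K₀ K₁ N a σ q := by
  unfold ex
  have h1 : (α • p + β • q).2 = α • p.2 + β • q.2 := rfl
  have h2 : (α • p + β • q).1 = α * p.1 + β * q.1 := rfl
  have h3 : β = 1 - α := by linarith
  rw [h1, h2, dt_comb, h3]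
  ring

theorem exp_convex {n : ℕ} (K₀ K₁ : Set (Fin n → ℝ)) (N : ℕ) (a : Fin n → ℝ) (σ : ℝ) :
    ConvexOn ℝ univ (fun p => Real.exp (ex K₀ K₁ N a σ p)) := by
  refine ⟨convex_univ, ?_⟩
  intro p _ q _ α β hα hβ hαβ
  simp only
  rw [ex_comb K₀ K₁ N a σ p q hαβ]
  exact convexOn_exp.2 (mem_univ _) (mem_univ _) hα hβ hαβ

theorem UU_pot {n : ℕ} (K₀ K₁ : Set (Fin n → ℝ)) (A : ℕ → Fin n → ℝ) (N : ℕ) :
    Pot (UU K₀ K₁ A N) := by
  refine ⟨?_, ?_, ?_, ?_⟩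
  · unfold UU
    refine ContDiff.sum fun j _ => ?_
    exact (Real.contDiff_exp.comp (ex_smooth K₀ K₁ N (A j) 1)).add
      (Real.contDiff_exp.comp (ex_smooth K₀ K₁ N (A j) (-1)))
  · have h : ∀ s : Finset ℕ, ConvexOn ℝ univ (fun p : ℝ × (Fin n → ℝ) =>
        ∑ j ∈ s, (Real.exp (ex K₀ K₁ N (A j) 1 p) + Real.exp (ex K₀ K₁ N (A j) (-1) p))) := by
      intro s
      induction s using Finset.induction_on with
      | empty => simpa using convexOn_const (0 : ℝ) convex_univ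
      | insert j s hj ih =>
        simp only [Finset.sum_insert hj]
        exact ((exp_convex K₀ K₁ N (A j) 1).add (exp_convex K₀ K₁ N (A j) (-1))).add ih
    exact h (Finset.range N)
  · intro s x
    unfold UU
    refine Finset.sum_congr rfl fun j _ => ?_
    have e1 : ex K₀ K₁ N (A j) 1 (s, -x) = ex K₀ K₁ N (A j) (-1) (s, x) := by
      unfold ex; simp only [dt_neg]; ring
    have e2 : ex K₀ K₁ N (A j) (-1) (s, -x) = ex K₀ K₁ N (A j) 1 (s, x) := by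
      unfold ex; simp only [dt_neg]; ring
    rw [e1, e2, add_comm]
  · intro p
    unfold UU
    exact Finset.sum_nonneg fun j _ => by positivity

theorem tendsto_in {n : ℕ} {K₀ K₁ : Set (Fin n → ℝ)} (A : ℕ → Fin n → ℝ) {s : ℝ}
    {x : Fin n → ℝ}
    (h : ∀ a, dt a x ≤ (1 - s) * sup K₀ a + s * sup K₁ a ∧
      -dt a x ≤ (1 - s) * sup K₀ a + s * sup K₁ a) :
    Tendsto (fun N => UU K₀ K₁ A N (s, x)) atTop (𝓝 0) := by
  have h0 : Tendsto (fun N : ℕ => 2 * ((N : ℝ) ^ 1 * Real.exp (-(N : ℝ)))) atTop (𝓝 0) := by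
    have := (Real.tendsto_pow_mul_exp_neg_atTop_nhds_zero 1).comp
      (tendsto_natCast_atTop_atTop (R := ℝ))
    have h2 := this.const_mul 2
    simpa using h2
  refine squeeze_zero (fun N => (UU_pot K₀ K₁ A N).nonneg _) (fun N => ?_) h0
  unfold UU
  have hb : ∀ j ∈ Finset.range N, (Real.exp (ex K₀ K₁ N (A j) 1 (s, x)) +
      Real.exp (ex K₀ K₁ N (A j) (-1) (s, x))) ≤ 2 * Real.exp (-(N : ℝ)) := by
    intro j hj
    have hN : 0 < (N : ℝ) := by
      have := Finset.mem_range.1 hj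
      exact_mod_cast (by omega : 0 < N)
    have h1 := (h (A j)).1
    have h2 := (h (A j)).2
    have key : ∀ t : ℝ, t ≤ (1 - s) * sup K₀ (A j) + s * sup K₁ (A j) →
        (N : ℝ) ^ 2 * (t - ((1 - s) * sup K₀ (A j) + s * sup K₁ (A j)) - 1 / N) ≤ -(N : ℝ) := by
      intro t ht
      have e : (N : ℝ) ^ 2 * (t - ((1 - s) * sup K₀ (A j) + s * sup K₁ (A j)) - 1 / N) =
          (N : ℝ) ^ 2 * (t - ((1 - s) * sup K₀ (A j) + s * sup K₁ (A j))) - N := by
        field_simp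
      rw [e]
      have : (N : ℝ) ^ 2 * (t - ((1 - s) * sup K₀ (A j) + s * sup K₁ (A j))) ≤ 0 :=
        mul_nonpos_of_nonneg_of_nonpos (by positivity) (by linarith)
      linarith
    have k1 := key _ h1
    have k2 := key _ h2
    have e1 : ex K₀ K₁ N (A j) 1 (s, x) ≤ -(N : ℝ) := by
      unfold ex; simp only [one_mul]; exact k1
    have e2 : ex K₀ K₁ N (A j) (-1) (s, x) ≤ -(N : ℝ) := by
      unfold ex; simp only [neg_mul, one_mul]; exact k2
    have := Real.exp_le_exp.2 e1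
    have := Real.exp_le_exp.2 e2
    linarith
  refine (Finset.sum_le_sum hb).trans (le_of_eq ?_)
  rw [Finset.sum_const, Finset.card_range, nsmul_eq_mul]
  ring

theorem tendsto_out {n : ℕ} {K₀ K₁ : Set (Fin n → ℝ)} (A : ℕ → Fin n → ℝ) {s : ℝ}
    {x : Fin n → ℝ} {j : ℕ} (h : (1 - s) * sup K₀ (A j) + s * sup K₁ (A j) < dt (A j) x) :
    Tendsto (fun N => UU K₀ K₁ A N (s, x)) atTop atTop := by
  obtain ⟨ε, hε, he⟩ : ∃ ε : ℝ, 0 < ε ∧
      ε = dt (A j) x - ((1 - s) * sup K₀ (A j) + s * sup K₁ (A j)) := ⟨_, by linarith, rfl⟩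
  have h1 : Tendsto (fun N : ℕ => (N : ℝ) * ((N : ℝ) * ε + (-1))) atTop atTop := by
    have hN := tendsto_natCast_atTop_atTop (R := ℝ)
    exact hN.atTop_mul_atTop₀ (tendsto_atTop_add_const_right _ _ (hN.atTop_mul_const hε))
  refine tendsto_atTop_mono' _ ?_ h1
  filter_upwards [eventually_gt_atTop j] with N hN
  have hN0 : 0 < (N : ℝ) := by exact_mod_cast (by omega : 0 < N)
  have h2 : Real.exp (ex K₀ K₁ N (A j) 1 (s, x)) ≤ UU K₀ K₁ A N (s, x) := by
    unfold UU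
    refine le_trans ?_ (Finset.single_le_sum (f := fun j =>
      (Real.exp (ex K₀ K₁ N (A j) 1 (s, x)) + Real.exp (ex K₀ K₁ N (A j) (-1) (s, x))))
      (fun i _ => by positivity) (Finset.mem_range.2 hN))
    have := Real.exp_pos (ex K₀ K₁ N (A j) (-1) (s, x))
    linarith
  have h3 : ex K₀ K₁ N (A j) 1 (s, x) = (N : ℝ) * ((N : ℝ) * ε + (-1)) := by
    unfold ex
    simp only [one_mul]
    rw [he]
    field_simp
    ring
  have h4 := Real.add_one_le_exp (ex K₀ K₁ N (A j) 1 (s, x))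
  rw [h3] at h4 h2
  linarith

theorem apxu : APXU_S := by
  intro n K₀ K₁ hc₀ hv₀ hs₀ hn₀ hc₁ hv₁ hs₁ hn₁
  refine ⟨UU K₀ K₁ (TopologicalSpace.denseSeq (Fin n → ℝ)), UU_pot K₀ K₁ _, ?_⟩
  intro s hs0 hs1 x
  by_cases hx : x ∈ (1 - s) • K₀ + s • K₁
  · rw [indicator_of_mem hx]
    have h1 : Tendsto (fun N => UU K₀ K₁ (TopologicalSpace.denseSeq (Fin n → ℝ)) N (s, x)) atTop
        (𝓝 0) := by
      apply tendsto_in
      intro a
      obtain ⟨y, hy, z, hz, rfl⟩ := Set.mem_add.1 hx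
      obtain ⟨y', hy', rfl⟩ := Set.mem_smul_set.1 hy
      obtain ⟨z', hz', rfl⟩ := Set.mem_smul_set.1 hz
      have hs : 0 ≤ 1 - s := by linarith
      have a1 := mul_le_mul_of_nonneg_left (le_sup hc₀ a hy') hs
      have a2 := mul_le_mul_of_nonneg_left (le_sup hc₁ a hz') hs0
      have a3 := mul_le_mul_of_nonneg_left (le_sup hc₀ a (hs₀ _ hy')) hs
      have a4 := mul_le_mul_of_nonneg_left (le_sup hc₁ a (hs₁ _ hz')) hs0
      rw [dt_neg] at a3 a4
      rw [dt_comb]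
      constructor <;> linarith
    have h2 : Tendsto (fun N => ENNReal.ofReal (Real.exp
        (-UU K₀ K₁ (TopologicalSpace.denseSeq (Fin n → ℝ)) N (s, x)))) atTop
        (𝓝 (ENNReal.ofReal (Real.exp (-0)))) :=
      ENNReal.tendsto_ofReal ((Real.continuous_exp.tendsto _).comp h1.neg)
    rw [neg_zero, Real.exp_zero, ENNReal.ofReal_one] at h2
    exact h2
  · rw [indicator_of_notMem hx]
    have hcl : IsClosed ((1 - s) • K₀ + s • K₁) :=
      ((hc₀.smul (1 - s)).add (hc₁.smul s)).isClosed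
    have hcv : Convex ℝ ((1 - s) • K₀ + s • K₁) := (hv₀.smul (1 - s)).add (hv₁.smul s)
    obtain ⟨f, u, hf, hu⟩ := geometric_hahn_banach_closed_point hcv hcl hx
    obtain ⟨a, ha⟩ : ∃ a : Fin n → ℝ, ∀ y, f y = dt a y := by
      refine ⟨fun i => f (fun j => if i = j then 1 else 0), fun y => ?_⟩
      have := LinearMap.pi_apply_eq_sum_univ (f : (Fin n → ℝ) →ₗ[ℝ] ℝ) y
      unfold dt
      rw [show f y = (f : (Fin n → ℝ) →ₗ[ℝ] ℝ) y from rfl, this]
      refine Finset.sum_congr rfl fun i _ => ?_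
      rw [smul_eq_mul, mul_comm]
      rfl
    have hopen : IsOpen {a : Fin n → ℝ | (1 - s) * sup K₀ a + s * sup K₁ a < dt a x} :=
      isOpen_lt ((continuous_const.mul (sup_cont hc₀)).add
        (continuous_const.mul (sup_cont hc₁))) (dt_cont1 x)
    have hmem : a ∈ {a : Fin n → ℝ | (1 - s) * sup K₀ a + s * sup K₁ a < dt a x} := by
      obtain ⟨k₀, hk₀, e₀⟩ := sup_attained hc₀ hn₀ a
      obtain ⟨k₁, hk₁, e₁⟩ := sup_attained hc₁ hn₁ a
      have := hf ((1 - s) • k₀ + s • k₁)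
        (Set.add_mem_add (Set.smul_mem_smul_set hk₀) (Set.smul_mem_smul_set hk₁))
      rw [ha, dt_comb, e₀, e₁] at this
      rw [ha] at hu
      exact this.trans hu
    obtain ⟨b, hb, j, rfl⟩ := (TopologicalSpace.denseRange_denseSeq (Fin n → ℝ)).exists_mem_open
      hopen ⟨a, hmem⟩ |> fun ⟨j, hj⟩ => (⟨_, hj, j, rfl⟩ : ∃ b, b ∈ {a : Fin n → ℝ |
        (1 - s) * sup K₀ a + s * sup K₁ a < dt a x} ∧ ∃ j,
          TopologicalSpace.denseSeq (Fin n → ℝ) j = b)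
    have h1 := tendsto_out (TopologicalSpace.denseSeq (Fin n → ℝ)) hb
    have h2 : Tendsto (fun N => ENNReal.ofReal (Real.exp
        (-UU K₀ K₁ (TopologicalSpace.denseSeq (Fin n → ℝ)) N (s, x)))) atTop
        (𝓝 (ENNReal.ofReal 0)) :=
      ENNReal.tendsto_ofReal (Real.tendsto_exp_neg_atTop_nhds_zero.comp h1)
    rw [ENNReal.ofReal_zero] at h2
    exact h2

end Pool.Agent.Lib.MP_2d002d_gt.PM.H93
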